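import Pool.Agent.Helper6.LPB.St

/-!
# Project LPB (MP_5e9b96_nt), module LOW: the first moment
-/

set_option autoImplicit false

noncomputable section

namespace Pool.Agent.Helper99.LPB

open Finset Filter
open Pool.Agent.Helper98.LM (QQ)
open Pool.Agent.Helper6.LP Pool.Agent.Helper6.LPB

private lemma fa_cast {n y : ℕ} (h : y ≤ n) : (((n - y) + n * y : ℕ) : ℤ) = fa n y := by
  unfold fa
  push_cast [Nat.cast_sub h]
  ring

private lemma fb_cast {n y : ℕ} (h : y ≤ n) : (((n - y) ^ 2 + n * y ^ 2 : ℕ) : ℤ) = fb n y := by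
  unfold fb
  push_cast [Nat.cast_sub h]
  ring

private lemma ev_log (c d : ℝ) (hc : 0 < c) (n : ℕ) :
    ∀ᶠ x : ℝ in atTop, d * Real.log x ^ n ≤ c * x ^ (1 / 2 : ℝ) := by
  have h := isLittleO_log_rpow_rpow_atTop (n : ℝ) (by norm_num : (0 : ℝ) < 1 / 2)
  have hd : 0 < c / (|d| + 1) := by positivity
  have h1 := h.bound hd
  filter_upwards [h1, eventually_ge_atTop (1 : ℝ)] with x hx hx1
  have hl : 0 ≤ Real.log x := Real.log_nonneg hx1
  rw [Real.rpow_natCast, Real.norm_of_nonneg (pow_nonneg hl n),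
    Real.norm_of_nonneg (by positivity)] at hx
  have h2 : d * Real.log x ^ n ≤ (|d| + 1) * Real.log x ^ n :=
    mul_le_mul_of_nonneg_right (by linarith [le_abs_self d]) (pow_nonneg hl n)
  refine h2.trans ?_
  have h3 := mul_le_mul_of_nonneg_left hx (by positivity : (0 : ℝ) ≤ |d| + 1)
  refine h3.trans (le_of_eq ?_)
  field_simp

private lemma log_two {x : ℝ} (hx : 1 ≤ x) :
    (2 : ℝ) ^ (Nat.log 2 ⌊x⌋₊) ≤ x ∧ x < 2 ^ (Nat.log 2 ⌊x⌋₊ + 1) := by
  have h1 : 1 ≤ ⌊x⌋₊ := by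
    rw [Nat.one_le_floor_iff]
    exact hx
  constructor
  · have h2 := Nat.pow_log_le_self 2 (by omega : ⌊x⌋₊ ≠ 0)
    have h3 : ((2 ^ Nat.log 2 ⌊x⌋₊ : ℕ) : ℝ) ≤ (⌊x⌋₊ : ℝ) := by exact_mod_cast h2
    push_cast at h3
    exact h3.trans (Nat.floor_le (by linarith))
  · have h2 := Nat.lt_pow_succ_log_self (by norm_num : 1 < 2) ⌊x⌋₊
    exact (Nat.floor_lt (by linarith)).1 h2 |>.trans_eq (by push_cast; rfl)

/-- LOW. -/
theorem hLOW (hO : StONU) (hA : StAVG) (hV : StVSM) : StLOW := by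
  classical
  obtain ⟨B, hB1, HO⟩ := hO
  obtain ⟨C, hC1, HA⟩ := hA
  obtain ⟨C', hC'1, HV⟩ := hV
  intro κ ε hκ hε
  have hBr : (0 : ℝ) ≤ B := Nat.cast_nonneg _
  obtain ⟨δ, hδ⟩ : ∃ δ : ℝ, δ = min (κ / 2) (1 / (2 * (B : ℝ) + 2)) := ⟨_, rfl⟩
  have hδ0 : 0 < δ := by rw [hδ]; exact lt_min (by positivity) (by positivity)
  have hδκ : δ ≤ κ / 2 := by rw [hδ]; exact min_le_left _ _
  have hδB' : δ ≤ 1 / (2 * (B : ℝ) + 2) := by rw [hδ]; exact min_le_right _ _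
  have hδB : δ * B ≤ 1 / 2 := by
    rw [le_div_iff₀ (by positivity)] at hδB'
    nlinarith
  have hδ1 : δ ≤ 1 := by
    rw [le_div_iff₀ (by positivity)] at hδB'
    nlinarith
  have hC0 : 0 < C := by linarith
  have hC'0 : 0 < C' := by linarith
  obtain ⟨c', hc'⟩ : ∃ c' : ℝ, c' = ε / (8 * C) := ⟨_, rfl⟩
  have hc'0 : 0 < c' := by rw [hc']; positivity
  obtain ⟨c, hc⟩ : ∃ c : ℝ, c = c' * δ ^ 2 / 20 := ⟨_, rfl⟩
  have hc0 : 0 < c := by rw [hc]; positivity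
  obtain ⟨I₀, HA⟩ := HA c' hc'0
  refine ⟨c, hc0, ?_⟩
  have ev1 := ev_log (ε / 4) (4 * c + 2) (by positivity) 2
  have ev5 := ev_log (ε / 4) 1 (by positivity) 0
  have ev2 := (tendsto_rpow_atTop hδ0).eventually_ge_atTop ((2 : ℝ) ^ (max I₀ 5 + 1))
  have ev3 := Real.tendsto_log_atTop.eventually_ge_atTop
    (1 + 2 / δ + δ ^ 2 / (4 * c) * (2 / δ) + 256 * C' / (δ * ε))
  obtain ⟨x₀, hx₀⟩ := eventually_atTop.1
    ((ev1.and (ev2.and (ev3.and ev5))).and (eventually_ge_atTop (1 : ℝ)))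
  refine ⟨⌈x₀⌉₊, fun N hN => ?_⟩
  obtain ⟨⟨e1, e2, e3, e5⟩, hN1⟩ := hx₀ (N : ℝ) (Nat.ceil_le.1 hN)
  obtain ⟨L, hLd⟩ : ∃ L : ℝ, L = Real.log N := ⟨_, rfl⟩
  rw [← hLd] at e1 e3
  have hN0 : (0 : ℝ) < N := by linarith
  have t1 : 0 < 2 / δ := by positivity
  have t2 : 0 < δ ^ 2 / (4 * c) * (2 / δ) := by positivity
  have t3 : 0 < 256 * C' / (δ * ε) := by positivity
  have hL1 : 1 ≤ L := by linarith
  have hL0 : 0 < L := by linarith
  have hLδ : 2 ≤ δ * L := by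
    have : 2 / δ ≤ L := by linarith
    rw [div_le_iff₀ hδ0] at this
    linarith
  have hLC : 256 * C' ≤ δ * ε * L := by
    have : 256 * C' / (δ * ε) ≤ L := by linarith
    rw [div_le_iff₀ (by positivity)] at this
    linarith
  have hLI : δ ^ 2 / (4 * c) ≤ δ / 2 * L := by
    have h1 : δ ^ 2 / (4 * c) * (2 / δ) ≤ L := by linarith
    have h2 := mul_le_mul_of_nonneg_left h1 (by positivity : 0 ≤ δ / 2)
    have h3 : δ / 2 * (δ ^ 2 / (4 * c) * (2 / δ)) = δ ^ 2 / (4 * c) := by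
      field_simp
    linarith
  have hNδ : 1 ≤ (N : ℝ) ^ δ := Real.one_le_rpow hN1 hδ0.le
  obtain ⟨I, hId⟩ : ∃ I : ℕ, I = Nat.log 2 ⌊(N : ℝ) ^ δ⌋₊ := ⟨_, rfl⟩
  obtain ⟨hI1, hI2⟩ := log_two hNδ
  rw [← hId] at hI1 hI2
  have hI3 : max I₀ 5 < I := by
    have h : (2 : ℝ) ^ (max I₀ 5 + 1) < 2 ^ (I + 1) := lt_of_le_of_lt e2 hI2
    have h' : (2 : ℕ) ^ (max I₀ 5 + 1) < 2 ^ (I + 1) := by exact_mod_cast h
    have := (Nat.pow_lt_pow_iff_right (by norm_num : 1 < 2)).1 h'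
    omega
  have hI0 : I₀ ≤ I := (le_max_left _ _).trans hI3.le
  have hI5 : 6 ≤ I := by have := le_max_right I₀ 5; omega
  have hIr : (6 : ℝ) ≤ I := by exact_mod_cast hI5
  have hlog2 : 1 / 2 < Real.log 2 := by have := Real.log_two_gt_d9; linarith
  have hlog2' : Real.log 2 < 1 := by have := Real.log_two_lt_d9; linarith
  have hlM : Real.log ((N : ℝ) ^ δ) = δ * L := by rw [Real.log_rpow hN0, hLd]
  have hIu : (I : ℝ) ≤ 2 * L := by
    have h := Real.log_le_log (by positivity) hI1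
    rw [hlM, Real.log_pow] at h
    have h4 : δ * L ≤ 1 * L := mul_le_mul_of_nonneg_right hδ1 hL0.le
    have h5 : (I : ℝ) * (1 / 2) ≤ I * Real.log 2 :=
      mul_le_mul_of_nonneg_left hlog2.le (Nat.cast_nonneg _)
    linarith
  have hIl : δ / 2 * L ≤ I := by
    have h := Real.log_le_log (by positivity) hI2.le
    rw [hlM, Real.log_pow] at h
    push_cast at h
    have h5 : ((I : ℝ) + 1) * Real.log 2 ≤ (I + 1) * 1 :=
      mul_le_mul_of_nonneg_left hlog2'.le (by positivity)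
    linarith
  obtain ⟨w, hw⟩ : ∃ w : ℕ, w = 2 ^ I - 1 := ⟨_, rfl⟩
  have h2I : 64 ≤ 2 ^ I := by
    calc 64 = 2 ^ 6 := by norm_num
      _ ≤ 2 ^ I := Nat.pow_le_pow_right (by norm_num) hI5
  have hw3 : 3 ≤ w := by omega
  have hwle : (w : ℝ) ≤ (N : ℝ) ^ δ := by
    have : (w : ℝ) ≤ ((2 ^ I : ℕ) : ℝ) := by exact_mod_cast (by omega : w ≤ 2 ^ I)
    push_cast at this
    linarith
  obtain ⟨S, hS⟩ : ∃ S : ℝ, S = (N : ℝ) ^ (1 / 2 : ℝ) := ⟨_, rfl⟩
  have hS0 : 0 < S := by rw [hS]; positivity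
  have hSS : S * S = N := by
    rw [hS, ← Real.rpow_add (by linarith)]
    norm_num
  rw [← hS] at e1 e5
  rw [pow_zero, mul_one] at e5
  have hwB : (w : ℝ) ^ B ≤ S := by
    rw [hS]
    calc (w : ℝ) ^ B ≤ ((N : ℝ) ^ δ) ^ B := pow_le_pow_left₀ (Nat.cast_nonneg _) hwle B
      _ = (N : ℝ) ^ (δ * B) := by rw [← Real.rpow_natCast, ← Real.rpow_mul hN0.le]
      _ ≤ (N : ℝ) ^ (1 / 2 : ℝ) := Real.rpow_le_rpow_of_exponent_le hN1 hδB
  have hlogw : (I : ℝ) / 4 ≤ Real.log w := by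
    have h1 : 2 ^ I ≤ 2 * w := by omega
    have h1' : (2 : ℝ) ^ I ≤ 2 * w := by exact_mod_cast h1
    have h2 := Real.log_le_log (by positivity) h1'
    have hw0 : (w : ℝ) ≠ 0 := by
      have : w ≠ 0 := by omega
      exact_mod_cast this
    rw [Real.log_pow, Real.log_mul (by norm_num) hw0] at h2
    nlinarith
  -- K
  obtain ⟨K, hK⟩ : ∃ K : ℕ, K = ⌊4 * c * L ^ 2⌋₊ + I := ⟨_, rfl⟩
  have hKr : (K : ℝ) ≤ 4 * c * L ^ 2 + I := by
    rw [hK]
    push_cast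
    have := Nat.floor_le (by positivity : 0 ≤ 4 * c * L ^ 2)
    linarith
  have hIK : I ≤ K := by omega
  have hKc : (K : ℝ) ≤ c' * (I : ℝ) ^ 2 := by
    have a1 : (δ / 2 * L) ^ 2 ≤ (I : ℝ) ^ 2 := pow_le_pow_left₀ (by positivity) hIl 2
    have a2 : 4 * c * L ^ 2 = 4 / 5 * c' * (δ / 2 * L) ^ 2 := by
      rw [hc]
      ring
    have a3 : δ ^ 2 / (4 * c) = 5 / c' := by
      rw [hc]
      field_simp
      norm_num
    have a4 : 5 / c' ≤ I := by
      rw [← a3]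
      linarith
    have a5 : (I : ℝ) ≤ 1 / 5 * c' * (I : ℝ) ^ 2 := by
      rw [div_le_iff₀ hc'0] at a4
      nlinarith
    have a6 := mul_le_mul_of_nonneg_left a1 (by positivity : 0 ≤ 4 / 5 * c')
    linarith
  have hav := HA I K hI0 hIK hKc
  rw [← hw] at hav
  -- the inclusion
  have hsub : (Icc 1 N).filter (fun n : ℕ => ∃ y : ℕ, 1 ≤ y ∧ y < n ∧
      (y : ℝ) ≤ c * Real.log n ^ 2 ∧ Rough κ n y) ⊆ Icc 1 (Nat.sqrt N) ∪
      (Icc 1 K).biUnion (fun y => (Icc 1 N).filter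
        (fun m : ℕ => ∀ l ∈ QQ 32 w, ¬ (l : ℤ) ∣ ff m y)) := by
    intro n hn
    rw [mem_filter, mem_Icc] at hn
    obtain ⟨⟨hn1, hnN⟩, y, hy1, hyn, hyc, hR⟩ := hn
    rw [mem_union]
    by_cases hsq : n ≤ Nat.sqrt N
    · exact Or.inl (mem_Icc.2 ⟨hn1, hsq⟩)
    right
    rw [mem_biUnion]
    have hNn : N < n ^ 2 := by
      rw [not_le, Nat.sqrt_lt'] at hsq
      exact hsq
    have hn0 : (1 : ℝ) ≤ n := by exact_mod_cast hn1
    have hln : Real.log n ≤ L := by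
      rw [hLd]
      exact Real.log_le_log (by linarith) (by exact_mod_cast hnN)
    have hln0 : 0 ≤ Real.log n := Real.log_nonneg hn0
    refine ⟨y, mem_Icc.2 ⟨hy1, ?_⟩, mem_filter.2 ⟨mem_Icc.2 ⟨hn1, hnN⟩, ?_⟩⟩
    · have h1 : (y : ℝ) ≤ 4 * c * L ^ 2 := by
        have h2 : Real.log n ^ 2 ≤ L ^ 2 := pow_le_pow_left₀ hln0 hln 2
        have h3 := mul_le_mul_of_nonneg_left h2 hc0.le
        have h4 : 0 ≤ c * L ^ 2 := by positivity
        linarith
      have h2 := Nat.le_floor h1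
      omega
    · intro l hl hdvd
      unfold QQ at hl
      simp only [mem_filter, mem_Ioc] at hl
      have hlp : Prime (l : ℤ) := Nat.prime_iff_prime_int.1 hl.2
      have hq : l ∣ (n - y) + n * y ∨ l ∣ (n - y) ^ 2 + n * y ^ 2 := by
        unfold ff at hdvd
        rw [← fa_cast hyn.le, ← fb_cast hyn.le] at hdvd
        rcases hlp.dvd_or_dvd hdvd with h | h
        · exact Or.inl (by exact_mod_cast h)
        · exact Or.inr (by exact_mod_cast h)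
      have h1 := hR l hl.2 hq
      have h2 : (N : ℝ) ^ (κ / 2) ≤ (n : ℝ) ^ κ := by
        have h3 : (N : ℝ) ≤ (n : ℝ) ^ 2 := by exact_mod_cast hNn.le
        have h4 := Real.rpow_le_rpow hN0.le h3 (by positivity : 0 ≤ κ / 2)
        have h5 : ((n : ℝ) ^ 2) ^ (κ / 2) = (n : ℝ) ^ κ := by
          rw [← Real.rpow_natCast, ← Real.rpow_mul (by linarith)]
          congr 1
          push_cast
          ring
        rw [h5] at h4
        exact h4
      have h3 : (N : ℝ) ^ δ ≤ (N : ℝ) ^ (κ / 2) := Real.rpow_le_rpow_of_exponent_le hN1 hδκ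
      have h4 : (l : ℝ) < 2 ^ I := by
        exact_mod_cast (by omega : l < 2 ^ I)
      linarith
  have hcard := card_le_card hsub
  have hcard2 := hcard.trans ((card_union_le _ _).trans (Nat.add_le_add_left card_biUnion_le _))
  rw [Nat.card_Icc, Nat.add_sub_cancel] at hcard2
  have hcard3 : (((Icc 1 N).filter (fun n : ℕ => ∃ y : ℕ, 1 ≤ y ∧ y < n ∧
      (y : ℝ) ≤ c * Real.log n ^ 2 ∧ Rough κ n y)).card : ℝ) ≤ (Nat.sqrt N : ℝ) +
      ∑ y ∈ Icc 1 K, (((Icc 1 N).filter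
        (fun m : ℕ => ∀ l ∈ QQ 32 w, ¬ (l : ℤ) ∣ ff m y)).card : ℝ) := by
    exact_mod_cast hcard2
  refine hcard3.trans ?_
  have hsum : ∑ y ∈ Icc 1 K, (((Icc 1 N).filter
        (fun m : ℕ => ∀ l ∈ QQ 32 w, ¬ (l : ℤ) ∣ ff m y)).card : ℝ) ≤
      ∑ y ∈ Icc 1 K, (2 * (N * VV 32 w 1 0 y) + (w : ℝ) ^ B) := by
    refine sum_le_sum fun y hy => ?_
    exact HO y w N (by omega) (mem_Icc.1 hy).1
  have hsplit : ∑ y ∈ Icc 1 K, (2 * (N * VV 32 w 1 0 y) + (w : ℝ) ^ B) =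
      2 * N * ∑ y ∈ Icc 1 K, VV 32 w 1 0 y + K * (w : ℝ) ^ B := by
    rw [sum_add_distrib, mul_sum, sum_const, Nat.card_Icc, Nat.add_sub_cancel, nsmul_eq_mul]
    congr 1
    exact sum_congr rfl fun y _ => by ring
  have hunion : Icc 1 K = Icc 1 4 ∪ Icc 5 K := by
    ext y
    simp only [mem_union, mem_Icc]
    omega
  have hdisj : Disjoint (Icc 1 4) (Icc 5 K) := by
    rw [Finset.disjoint_left]
    intro y h1 h2
    simp only [mem_Icc] at h1 h2
    omega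
  have hsm : ∑ y ∈ Icc 1 4, VV 32 w 1 0 y ≤ 4 * (C' / Real.log w) := by
    have h1 : ∀ y ∈ Icc 1 4, VV 32 w 1 0 y ≤ C' / Real.log w := by
      intro y hy
      rw [mem_Icc] at hy
      exact HV w y hw3 hy.1 hy.2
    refine (sum_le_sum h1).trans ?_
    rw [sum_const, Nat.card_Icc, nsmul_eq_mul]
    norm_num
  have hVs : ∑ y ∈ Icc 1 K, VV 32 w 1 0 y ≤ 4 * (C' / Real.log w) + C * c' := by
    rw [hunion, sum_union hdisj]
    linarith
  have hlw0 : 0 < Real.log w := by linarith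
  have hsmall : 2 * (4 * (C' / Real.log w)) ≤ ε / 4 := by
    have h1 : 32 * C' ≤ ε / 4 * (4 * Real.log w) := by
      have h2 : δ / 2 * L ≤ 4 * Real.log w := by linarith
      have h3 := mul_le_mul_of_nonneg_left h2 (by positivity : 0 ≤ ε / 4)
      linarith
    have h4 : 2 * (4 * (C' / Real.log w)) = 8 * C' / Real.log w := by ring
    rw [h4, div_le_iff₀ hlw0]
    linarith
  have hCc : 2 * (C * c') = ε / 4 := by
    rw [hc']
    field_simp
    norm_num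
  have hVV : 2 * N * ∑ y ∈ Icc 1 K, VV 32 w 1 0 y ≤ ε / 2 * N := by
    have h1 := mul_le_mul_of_nonneg_left hVs (by positivity : (0 : ℝ) ≤ 2 * N)
    have h2 : 2 * (N : ℝ) * (4 * (C' / Real.log w) + C * c') =
      N * (2 * (4 * (C' / Real.log w)) + 2 * (C * c')) := by ring
    rw [h2] at h1
    have h3 : (N : ℝ) * (2 * (4 * (C' / Real.log w)) + 2 * (C * c')) ≤ N * (ε / 4 + ε / 4) :=
      mul_le_mul_of_nonneg_left (by linarith) hN0.le
    linarith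
  have hKw : (K : ℝ) * (w : ℝ) ^ B ≤ ε / 4 * N := by
    have h1 : (K : ℝ) ≤ ε / 4 * S := by
      have h2 : (K : ℝ) ≤ (4 * c + 2) * L ^ 2 := by
        have : L ≤ L ^ 2 := by nlinarith
        nlinarith
      exact h2.trans e1
    calc (K : ℝ) * (w : ℝ) ^ B ≤ (ε / 4 * S) * S :=
          mul_le_mul h1 hwB (by positivity) (by positivity)
      _ = ε / 4 * N := by rw [mul_assoc, hSS]
  have hsq : (Nat.sqrt N : ℝ) ≤ ε / 4 * N := by
    have h1 : (Nat.sqrt N : ℝ) ≤ S := by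
      have h2 : (Nat.sqrt N : ℝ) ≤ Real.sqrt N := Real.nat_sqrt_le_real_sqrt
      rw [hS, ← Real.sqrt_eq_rpow]
      exact h2
    have h3 := mul_le_mul_of_nonneg_right e5 hS0.le
    rw [one_mul, mul_assoc, hSS] at h3
    linarith
  rw [hsplit] at hsum
  linarith

end Pool.Agent.Helper99.LPB
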