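import Pool.Agent.Helper6.LPB.St

/-!
# Project LPB (MP_5e9b96_nt), module SPB: splitting of the product

Adapted from `Pool/Agent/Helper21/LZ/M_GOO.lean`.
-/

set_option autoImplicit false

noncomputable section

namespace Pool.Agent.Helper99.LPB

open Finset
open Pool.Agent.Helper15.AB (StMT)
open Pool.Agent.Helper60.LZ (js bp bl)
open Pool.Agent.Helper98.LM (QQ)
open Pool.Agent.Helper6.LP Pool.Agent.Helper6.LPB

private def MM (y : ℕ) : ℝ := ∑ l ∈ (Icc 1 y).filter Nat.Prime, (1 : ℝ) / l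

private theorem qqM {z w : ℕ} (hw : z ≤ w) :
    ∑ l ∈ QQ z w, (1 : ℝ) / l = MM w - MM z := by
  have h : (Icc 1 w).filter Nat.Prime = (Icc 1 z).filter Nat.Prime ∪ QQ z w := by
    ext l
    unfold QQ
    simp only [mem_union, mem_filter, mem_Icc, mem_Ioc]
    constructor
    · rintro ⟨⟨h1, h2⟩, h3⟩
      by_cases h4 : l ≤ z
      · exact Or.inl ⟨⟨h1, h4⟩, h3⟩
      · exact Or.inr ⟨⟨by omega, h2⟩, h3⟩
    · rintro (⟨⟨h1, h2⟩, h3⟩ | ⟨⟨h1, h2⟩, h3⟩)
      · exact ⟨⟨h1, by omega⟩, h3⟩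
      · exact ⟨⟨by omega, h2⟩, h3⟩
  have hd : Disjoint ((Icc 1 z).filter Nat.Prime) (QQ z w) := by
    rw [Finset.disjoint_left]
    intro l h1 h2
    unfold QQ at h2
    simp only [mem_filter, mem_Icc, mem_Ioc] at h1 h2
    omega
  unfold MM
  rw [h, sum_union hd]
  ring

private theorem qq_union {p z w : ℕ} (h1 : p ≤ z) (h2 : z ≤ w) : QQ p w = QQ p z ∪ QQ z w := by
  ext l
  unfold QQ
  simp only [mem_union, mem_filter, mem_Ioc]
  constructor
  · rintro ⟨⟨h3, h4⟩, h5⟩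
    by_cases h6 : l ≤ z
    · exact Or.inl ⟨⟨h3, h6⟩, h5⟩
    · exact Or.inr ⟨⟨by omega, h4⟩, h5⟩
  · rintro (⟨⟨h3, h4⟩, h5⟩ | ⟨⟨h3, h4⟩, h5⟩)
    · exact ⟨⟨h3, by omega⟩, h5⟩
    · exact ⟨⟨by omega, h4⟩, h5⟩

private theorem qq_disj (p z w : ℕ) : Disjoint (QQ p z) (QQ z w) := by
  rw [Finset.disjoint_left]
  intro l h1 h2
  unfold QQ at h1 h2
  simp only [mem_filter, mem_Ioc] at h1 h2
  omega

private theorem split {x j0 : ℕ} (h0 : x < 2 ^ j0) (f : ℕ → ℝ) : ∀ J : ℕ, j0 ≤ J →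
    ∑ l ∈ QQ x (2 ^ J - 1), f l =
      ∑ l ∈ QQ x (2 ^ j0 - 1), f l + ∑ j ∈ Ico j0 J, ∑ p ∈ bp j, f p := by
  intro J hJ
  induction J, hJ using Nat.le_induction with
  | base => simp
  | succ J hJ ih =>
    have hp : 2 ^ j0 ≤ 2 ^ J := Nat.pow_le_pow_right (by norm_num) hJ
    have hs : 2 ^ (J + 1) = 2 * 2 ^ J := by rw [pow_succ]; ring
    have h : QQ x (2 ^ (J + 1) - 1) = QQ x (2 ^ J - 1) ∪ bp J := by
      ext l
      unfold QQ bp
      simp only [mem_union, mem_filter, mem_Ioc, mem_Ico]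
      rw [hs]
      constructor
      · rintro ⟨⟨h1, h2⟩, h3⟩
        by_cases h5 : l < 2 ^ J
        · exact Or.inl ⟨⟨h1, by omega⟩, h3⟩
        · exact Or.inr ⟨⟨by omega, by omega⟩, h3⟩
      · rintro (⟨⟨h1, h2⟩, h3⟩ | ⟨⟨h1, h2⟩, h3⟩)
        · exact ⟨⟨h1, by omega⟩, h3⟩
        · exact ⟨⟨by omega, by omega⟩, h3⟩
    have hd : Disjoint (QQ x (2 ^ J - 1)) (bp J) := by
      rw [Finset.disjoint_left]
      intro l h1 h2
      unfold QQ at h1
      unfold bp at h2
      simp only [mem_filter, mem_Ioc, mem_Ico] at h1 h2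
      omega
    rw [h, sum_union hd, ih, Finset.sum_Ico_succ_top hJ]
    ring

private theorem js_le (t l : ℕ) : |js t l| ≤ 1 := by
  unfold js
  rcases jacobiSym.trichotomy ((t : ℤ) ^ 2 - 4) l with h | h | h <;> rw [h] <;> norm_num

private theorem js_div (t l : ℕ) : -(js t l / l) ≤ 1 / l := by
  have h1 := js_le t l
  have h2 : (0 : ℝ) ≤ l := Nat.cast_nonneg l
  rw [← neg_div]
  have h3 : -js t l ≤ 1 := by
    have := neg_abs_le (js t l)
    linarith
  exact div_le_div_of_nonneg_right h3 h2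

private theorem loglog_le {y : ℕ} {z : ℝ} (hy : 3 ≤ y) (h : Real.log y ≤ z) :
    Real.log (Real.log y) ≤ Real.log z := by
  have h1 : 0 < Real.log y := Real.log_pos (by exact_mod_cast (by omega : 1 < y))
  exact Real.log_le_log h1 h

/-- few prime factors -/
private theorem few {z E n w : ℕ} (hz : 1 < z) (hE : 0 < E) (h : E ≤ z ^ n) :
    ((QQ z w).filter (fun l => l ∣ E)).card ≤ n := by
  have h1 : ∏ l ∈ (QQ z w).filter (fun l => l ∣ E), l ∣ E := by
    refine Finset.prod_primes_dvd E ?_ ?_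
    · intro l hl
      unfold QQ at hl
      simp only [mem_filter] at hl
      exact hl.1.2.prime
    · intro l hl
      exact (mem_filter.1 hl).2
  have h2 : z ^ ((QQ z w).filter (fun l => l ∣ E)).card ≤
      ∏ l ∈ (QQ z w).filter (fun l => l ∣ E), l := by
    refine Finset.pow_card_le_prod _ _ _ ?_
    intro l hl
    unfold QQ at hl
    simp only [mem_filter, mem_Ioc] at hl
    omega
  have h3 := Nat.le_of_dvd hE h1
  exact (Nat.pow_le_pow_iff_right hz).1 (h2.trans (h3.trans h))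

/-- SPB. -/
theorem hSPB (hL : StLOL) (hM : StMT) : StSPB := by
  obtain ⟨C0, hC0, hM⟩ := hM
  have hMM : ∀ y : ℕ, 3 ≤ y → |MM y - Real.log (Real.log y)| ≤ C0 := by
    intro y hy
    have h := hM (y : ℝ) (by exact_mod_cast hy)
    rw [Nat.floor_natCast] at h
    exact h
  intro B hB
  have hl2 : 0 < Real.log 2 := Real.log_pos (by norm_num)
  have hl2' : Real.log 2 < 1 := by have := Real.log_two_lt_d9; linarith
  obtain ⟨b, hb⟩ : ∃ b : ℕ, b = 8 * B + 2 := ⟨_, rfl⟩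
  have hb0 : (1 : ℝ) ≤ b := by exact_mod_cast (by omega : 1 ≤ b)
  have hlb : 0 ≤ Real.log b := Real.log_nonneg hb0
  obtain ⟨D, hD⟩ : ∃ D : ℝ, D = 8 * C0 - 2 * Real.log (Real.log 2 / 2) + 3 * b + Real.log b +
    2 * C0 + (2 * C0 + Real.log 2) := ⟨_, rfl⟩
  have hll : Real.log (Real.log 2 / 2) < 0 := Real.log_neg (by positivity) (by linarith)
  have hD0 : 0 ≤ D := by rw [hD]; linarith
  refine ⟨Real.exp D, Real.one_le_exp hD0, 40, le_refl _, ?_⟩
  intro z K j0 j1 I y hz hzK hKz h0 h0' h01 h1I hy5 hyK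
  have hzr : (40 : ℝ) ≤ z := by exact_mod_cast hz
  have hlz : 0 < Real.log z := Real.log_pos (by linarith)
  have hzK' : z ≤ K := (Nat.le_self_pow (by omega) z).trans hzK
  have hKK : K ≤ K ^ 4 := Nat.le_self_pow (by omega) K
  have hj0z : z < 2 ^ j0 := by omega
  have hp1 : 2 ^ j0 ≤ 2 ^ j1 := Nat.pow_le_pow_right (by norm_num) h01
  have hpI : 2 ^ j1 ≤ 2 ^ I := Nat.pow_le_pow_right (by norm_num) h1I
  have h2j0 : 256 * 40 ≤ 2 ^ j0 := by omega
  have hj4 : 4 ≤ j0 := by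
    by_contra hc
    have h1 : j0 ≤ 3 := by omega
    have h2 : 2 ^ j0 ≤ 2 ^ 3 := Nat.pow_le_pow_right (by norm_num) h1
    omega
  obtain ⟨w, hw⟩ : ∃ w, w = 2 ^ I - 1 := ⟨_, rfl⟩
  have hzw : z ≤ w := by omega
  have hw3 : 3 ≤ w := by omega
  -- K ^ 4 and powers of z
  have hK4 : K ^ 4 ≤ z ^ (8 * B) := by
    have e1 : K ≤ (z ^ 2) ^ B := by
      refine hKz.le.trans (Nat.pow_le_pow_left ?_ B)
      nlinarith
    calc K ^ 4 ≤ ((z ^ 2) ^ B) ^ 4 := Nat.pow_le_pow_left e1 4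
      _ = z ^ (8 * B) := by
        rw [← pow_mul, ← pow_mul]
        congr 1
        ring
  have hzz : 512 ≤ z ^ 2 := by nlinarith
  have h512 : 512 * K ^ 4 ≤ z ^ b := by
    calc 512 * K ^ 4 ≤ z ^ 2 * z ^ (8 * B) := Nat.mul_le_mul hzz hK4
      _ = z ^ b := by rw [hb, ← pow_add]; congr 1; ring
  -- the splitting of VV
  have hfac : ∀ l : ℕ, 0 ≤ 1 - ((SS 1 0 y l).card : ℝ) / l := by
    intro l
    have h1 : (SS 1 0 y l).card ≤ l := by
      unfold SS
      refine (card_filter_le _ _).trans ?_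
      rw [card_range]
    have h1' : ((SS 1 0 y l).card : ℝ) ≤ l := by exact_mod_cast h1
    have h2 : ((SS 1 0 y l).card : ℝ) / l ≤ 1 := div_le_one_of_le₀ h1' (Nat.cast_nonneg _)
    linarith
  have hVz0 : 0 ≤ VV 32 z 1 0 y := by
    unfold VV
    exact prod_nonneg fun l _ => hfac l
  have hVz1 : VV 32 z 1 0 y ≤ 1 := by
    unfold VV
    refine prod_le_one (fun l _ => hfac l) fun l _ => ?_
    have : 0 ≤ ((SS 1 0 y l).card : ℝ) / l := by positivity
    linarith
  have hVV : VV 32 w 1 0 y ≤ VV 32 z 1 0 y *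
      Real.exp (-∑ l ∈ QQ z w, ((SS 1 0 y l).card : ℝ) / l) := by
    unfold VV
    rw [qq_union (by omega : 32 ≤ z) hzw, prod_union (qq_disj _ _ _), ← sum_neg_distrib,
      Real.exp_sum]
    refine mul_le_mul_of_nonneg_left ?_ (prod_nonneg fun l _ => hfac l)
    refine prod_le_prod (fun l _ => hfac l) fun l _ => ?_
    have := Real.add_one_le_exp (-(((SS 1 0 y l).card : ℝ) / l))
    linarith
  -- the number of the classes
  obtain ⟨E, hE⟩ : ∃ E : ℕ, E = y * (y - 4) * (y + 1) * (2 * y + 1) := ⟨_, rfl⟩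
  have hE0 : 0 < E := by
    rw [hE]
    have : 0 < y - 4 := by omega
    positivity
  have hEz : E ≤ z ^ b := by
    refine le_trans ?_ h512
    have e1 : y * (y - 4) * (y + 1) * (2 * y + 1) ≤ K * K * (2 * K) * (3 * K) := by
      gcongr <;> omega
    rw [hE]
    refine e1.trans ?_
    have : K * K * (2 * K) * (3 * K) = 6 * K ^ 4 := by ring
    omega
  have hcl : ∀ l ∈ QQ z w, (2 + js (y - 2) l) / l - (if l ∣ E then (3 : ℝ) / l else 0) ≤
      ((SS 1 0 y l).card : ℝ) / l := by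
    intro l hl
    unfold QQ at hl
    simp only [mem_filter, mem_Ioc] at hl
    have hl0 : (0 : ℝ) < l := by exact_mod_cast (by omega : 0 < l)
    split_ifs with hd
    · rw [← sub_div]
      refine div_le_div_of_nonneg_right ?_ hl0.le
      have := (abs_le.1 (js_le (y - 2) l)).2
      have : (0 : ℝ) ≤ ((SS 1 0 y l).card : ℝ) := Nat.cast_nonneg _
      linarith
    · rw [sub_zero]
      refine div_le_div_of_nonneg_right ?_ hl0.le
      exact hL y l hl.2 (by omega) hy5 (by rw [← hE]; exact hd)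
  have hbad : ∑ l ∈ QQ z w, (if l ∣ E then (3 : ℝ) / l else 0) ≤ 3 * b := by
    rw [← sum_filter]
    have h1 : ∀ l ∈ (QQ z w).filter (fun l => l ∣ E), (3 : ℝ) / l ≤ 3 := by
      intro l hl
      unfold QQ at hl
      simp only [mem_filter, mem_Ioc] at hl
      have hl0 : (1 : ℝ) ≤ l := by exact_mod_cast (by omega : 1 ≤ l)
      rw [div_le_iff₀ (by linarith)]
      linarith
    refine (sum_le_sum h1).trans ?_
    rw [sum_const, nsmul_eq_mul]
    have h2 : ((QQ z w).filter (fun l => l ∣ E)).card ≤ b := few (by omega) hE0 hEz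
    have h2' : (((QQ z w).filter (fun l => l ∣ E)).card : ℝ) ≤ b := by exact_mod_cast h2
    linarith
  have hSS : ∑ l ∈ QQ z w, (2 : ℝ) / l + ∑ l ∈ QQ z w, js (y - 2) l / l - 3 * b ≤
      ∑ l ∈ QQ z w, ((SS 1 0 y l).card : ℝ) / l := by
    have h1 := sum_le_sum hcl
    rw [sum_sub_distrib] at h1
    simp only [add_div, sum_add_distrib] at h1
    linarith
  -- Mertens
  have hI0 : (0 : ℝ) < I := by exact_mod_cast (by omega : 0 < I)
  have hj10 : (0 : ℝ) < j1 := by exact_mod_cast (by omega : 0 < j1)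
  have loglo : ∀ j : ℕ, 4 ≤ j → Real.log (j * Real.log 2 / 2) ≤
      Real.log (Real.log ((2 ^ j - 1 : ℕ) : ℝ)) := by
    intro j hj
    have hjr : (0 : ℝ) < j := by exact_mod_cast (by omega : 0 < j)
    have h16 : 16 ≤ 2 ^ j := by
      calc 16 = 2 ^ 4 := by norm_num
        _ ≤ 2 ^ j := Nat.pow_le_pow_right (by norm_num) hj
    apply Real.log_le_log (by positivity)
    have e8 : (2 : ℝ) ^ j ≤ ((2 ^ j - 1 : ℕ) : ℝ) ^ 2 := by
      have e9 : 2 ^ j ≤ (2 ^ j - 1) ^ 2 := by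
        obtain ⟨u, hu⟩ : ∃ u, 2 ^ j = u + 1 := ⟨2 ^ j - 1, by omega⟩
        rw [hu, Nat.add_sub_cancel]
        have e11 : 15 ≤ u := by omega
        nlinarith
      exact_mod_cast e9
    have e12 := Real.log_le_log (by positivity) e8
    rw [Real.log_pow, Real.log_pow, Nat.cast_ofNat] at e12
    linarith
  have logup : ∀ j : ℕ, 4 ≤ j → Real.log (Real.log ((2 ^ j - 1 : ℕ) : ℝ)) ≤
      Real.log (j * Real.log 2) := by
    intro j hj
    have h16 : 16 ≤ 2 ^ j := by
      calc 16 = 2 ^ 4 := by norm_num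
        _ ≤ 2 ^ j := Nat.pow_le_pow_right (by norm_num) hj
    apply loglog_le (by omega)
    have e4 : ((2 ^ j - 1 : ℕ) : ℝ) ≤ (2 : ℝ) ^ j := by
      exact_mod_cast (by omega : 2 ^ j - 1 ≤ 2 ^ j)
    have e5 : (0 : ℝ) < ((2 ^ j - 1 : ℕ) : ℝ) := by exact_mod_cast (by omega : 0 < 2 ^ j - 1)
    have e6 := Real.log_le_log e5 e4
    rwa [Real.log_pow] at e6
  have h2l : 2 * Real.log (I / Real.log z) + 2 * Real.log (Real.log 2 / 2) - 4 * C0 ≤
      ∑ l ∈ QQ z w, (2 : ℝ) / l := by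
    have e0 : ∑ l ∈ QQ z w, (2 : ℝ) / l = 2 * ∑ l ∈ QQ z w, (1 : ℝ) / l := by
      rw [mul_sum]
      exact sum_congr rfl fun l _ => by ring
    rw [e0, qqM hzw]
    have e1 := (abs_le.1 (hMM w hw3)).1
    have e2 := (abs_le.1 (hMM z (by omega))).2
    have e3 := loglo I (by omega)
    rw [← hw] at e3
    have e4 : Real.log (I * Real.log 2 / 2) = Real.log I + Real.log (Real.log 2 / 2) := by
      rw [mul_div_assoc, Real.log_mul hI0.ne' (by positivity)]
    rw [e4] at e3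
    rw [Real.log_div hI0.ne' hlz.ne']
    linarith
  -- first part
  have hA : ∑ l ∈ QQ z (2 ^ j0 - 1), (1 : ℝ) / l ≤ 2 * C0 + Real.log b := by
    rw [qqM (by omega)]
    have e1 := (abs_le.1 (hMM (2 ^ j0 - 1) (by omega))).2
    have e2 := (abs_le.1 (hMM z (by omega))).1
    have e3 : Real.log (Real.log ((2 ^ j0 - 1 : ℕ) : ℝ)) ≤ Real.log (b * Real.log z) := by
      apply loglog_le (by omega)
      have e4 : ((2 ^ j0 - 1 : ℕ) : ℝ) ≤ (z : ℝ) ^ b := by
        exact_mod_cast (by omega : 2 ^ j0 - 1 ≤ z ^ b)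
      have e5 : (0 : ℝ) < ((2 ^ j0 - 1 : ℕ) : ℝ) := by exact_mod_cast (by omega : 0 < 2 ^ j0 - 1)
      have e6 := Real.log_le_log e5 e4
      rwa [Real.log_pow] at e6
    rw [Real.log_mul (by linarith) hlz.ne'] at e3
    linarith
  have hA' : -∑ l ∈ QQ z (2 ^ j0 - 1), js (y - 2) l / l ≤ 2 * C0 + Real.log b := by
    refine le_trans ?_ hA
    rw [← sum_neg_distrib]
    exact sum_le_sum fun l _ => js_div _ l
  have hsp := split hj0z (fun l => js (y - 2) l / l) I (h01.trans h1I)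
  have hbl : ∀ j, ∑ p ∈ bp j, (fun l : ℕ => js (y - 2) l / l) p = bl (y - 2) j := fun j => rfl
  simp only [hbl] at hsp
  rw [← hw] at hsp
  have hneg : ∀ s : Finset ℕ, -∑ j ∈ s, bl (y - 2) j ≤ ∑ j ∈ s, |bl (y - 2) j| := by
    intro s
    rw [← sum_neg_distrib]
    exact sum_le_sum fun j _ => neg_le_abs _
  have hsq : Real.exp (-(2 * Real.log (I / Real.log z))) = (Real.log z / I) ^ 2 := by
    have hq : 0 < I / Real.log z := by positivity
    rw [Real.exp_neg, mul_comm, Real.exp_mul, Real.exp_log hq]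
    rw [show (2 : ℝ) = ((2 : ℕ) : ℝ) by norm_num, Real.rpow_natCast, ← inv_pow, inv_div]
  rw [← hw]
  constructor
  · refine hVV.trans ?_
    have h := hneg (Ico j0 I)
    have hexp : -∑ l ∈ QQ z w, ((SS 1 0 y l).card : ℝ) / l ≤
        D + -(2 * Real.log (I / Real.log z)) + ∑ j ∈ Ico j0 I, |bl (y - 2) j| := by
      rw [hsp] at hSS
      rw [hD]
      linarith
    calc VV 32 z 1 0 y * Real.exp (-∑ l ∈ QQ z w, ((SS 1 0 y l).card : ℝ) / l) ≤
        VV 32 z 1 0 y * Real.exp (D + -(2 * Real.log (I / Real.log z)) +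
          ∑ j ∈ Ico j0 I, |bl (y - 2) j|) :=
          mul_le_mul_of_nonneg_left (Real.exp_le_exp.2 hexp) hVz0
      _ = _ := by
        rw [Real.exp_add, Real.exp_add, hsq]
        ring
  · refine hVV.trans ?_
    have h := hneg (Ico j0 j1)
    have hBB : -∑ j ∈ Ico j1 I, bl (y - 2) j ≤ 2 * C0 + Real.log 2 + Real.log (I / j1) := by
      have s1 := split (by omega : z < 2 ^ j1) (fun l => (1 : ℝ) / l) I h1I
      have s2 : -∑ j ∈ Ico j1 I, bl (y - 2) j ≤ ∑ j ∈ Ico j1 I, ∑ p ∈ bp j, (1 : ℝ) / p := by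
        rw [← sum_neg_distrib]
        refine sum_le_sum fun j _ => ?_
        unfold bl
        rw [← sum_neg_distrib]
        exact sum_le_sum fun l _ => js_div _ l
      rw [qqM (by omega), qqM (by omega)] at s1
      have e1 := (abs_le.1 (hMM (2 ^ I - 1) (by omega))).2
      have e2 := (abs_le.1 (hMM (2 ^ j1 - 1) (by omega))).1
      have e3 := logup I (by omega)
      have e7 := loglo j1 (by omega)
      rw [Real.log_mul hI0.ne' hl2.ne'] at e3
      rw [Real.log_div (by positivity) (by norm_num), Real.log_mul hj10.ne' hl2.ne'] at e7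
      rw [Real.log_div hI0.ne' hj10.ne']
      linarith
    have hcs := Finset.sum_Ico_consecutive (fun j => bl (y - 2) j) h01 h1I
    have hexp : -∑ l ∈ QQ z w, ((SS 1 0 y l).card : ℝ) / l ≤
        D + -(2 * Real.log (I / Real.log z)) + Real.log (I / j1) +
          ∑ j ∈ Ico j0 j1, |bl (y - 2) j| := by
      rw [hsp, ← hcs] at hSS
      rw [hD]
      linarith
    calc VV 32 z 1 0 y * Real.exp (-∑ l ∈ QQ z w, ((SS 1 0 y l).card : ℝ) / l) ≤
        1 * Real.exp (D + -(2 * Real.log (I / Real.log z)) + Real.log (I / j1) +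
          ∑ j ∈ Ico j0 j1, |bl (y - 2) j|) :=
          mul_le_mul hVz1 (Real.exp_le_exp.2 hexp) (Real.exp_nonneg _) (by norm_num)
      _ = _ := by
        rw [Real.exp_add, Real.exp_add, Real.exp_add, hsq, Real.exp_log (by positivity)]
        ring

end Pool.Agent.Helper99.LPB
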